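import Pool.Agent.Helper48_VMX.All
import Pool.Agent.Helper2_NTW.Fin

/-!
# Flat simplices in non-hyperbolic convex cocompact groups

Let the discrete group `Γ` act convex cocompactly on the properly convex domain `Ω` (the projective
image of the cone `C` in `ℝ^n`) and suppose that `Γ` is not word hyperbolic (all hypotheses
literally as in the frozen statement S14139).

THEOREM.  For some `k ≥ 2` there is a properly embedded `k`-simplex with vertices in the full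
orbital limit set which is a maximal properly embedded simplex of `Ω` and which is preserved by a
subgroup of `Γ` isomorphic to `ℤ^k`.

This is the full answer to Q1 (S14139), with the additional information that the simplex lies in the
convex core and has its vertices in the full orbital limit set.
-/

set_option autoImplicit false

open Matrix

namespace Pool.Agent.Results.MP_e54c4c_gt.FlatSimplices

/-- the full orbital limit set of `Γ`, as a set of unit vectors in the boundary of the cone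
(verbatim the set that occurs in S14139) -/
def Lam {n : ℕ} (C : Set (Fin n → ℝ)) (Γ : Subgroup (GL (Fin n) ℝ)) : Set (Fin n → ℝ) :=
  {u : Fin n → ℝ | ‖u‖ = 1 ∧ u ∈ closure C ∧ u ∉ C ∧ ∃ x ∈ C,
    u ∈ closure {z : Fin n → ℝ | ∃ g ∈ Γ,
      z = ‖(g : Matrix (Fin n) (Fin n) ℝ) *ᵥ x‖⁻¹ • ((g : Matrix (Fin n) (Fin n) ℝ) *ᵥ x)}}

/-- the open simplicial cone over the open simplex with vertices `v` -/
def OpenSimplex {n m : ℕ} (v : Fin m → (Fin n → ℝ)) : Set (Fin n → ℝ) :=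
  {y : Fin n → ℝ | ∃ c : Fin m → ℝ, (∀ i, 0 < c i) ∧ y = ∑ i, c i • v i}

/-- `v` spans a properly embedded simplex of the domain -/
def ProperlyEmbedded {n m : ℕ} (C : Set (Fin n → ℝ)) (v : Fin m → (Fin n → ℝ)) : Prop :=
  LinearIndependent ℝ v ∧ OpenSimplex v ⊆ C ∧ closure (OpenSimplex v) ∩ C ⊆ OpenSimplex v

/-- `v` spans a properly embedded simplex of the domain all of whose vertices are positive
multiples of points of the full orbital limit set -/
def InCore {n m : ℕ} (C : Set (Fin n → ℝ)) (Γ : Subgroup (GL (Fin n) ℝ))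
    (v : Fin m → (Fin n → ℝ)) : Prop :=
  ProperlyEmbedded C v ∧ ∀ i, ∃ t : ℝ, 0 < t ∧ ∃ u ∈ Lam C Γ, v i = t • u

/-- the conclusion of Q1 for the simplex spanned by `v`: it is properly embedded, maximal, and
preserved by a subgroup of `Γ` isomorphic to `ℤ^k` -/
def Q1Conclusion {n : ℕ} (C : Set (Fin n → ℝ)) (Γ : Subgroup (GL (Fin n) ℝ)) (k : ℕ)
    (v : Fin (k + 1) → (Fin n → ℝ)) : Prop :=
  ProperlyEmbedded C v ∧
    (∀ (m : ℕ) (w : Fin (m + 1) → (Fin n → ℝ)), ProperlyEmbedded C w →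
      OpenSimplex v ⊆ OpenSimplex w → OpenSimplex w ⊆ OpenSimplex v) ∧
    ∃ A : Subgroup (GL (Fin n) ℝ), A ≤ Γ ∧
      Nonempty (↥A ≃* Multiplicative (Fin k → ℤ)) ∧
      ∀ a ∈ A, ∀ y ∈ OpenSimplex v, (a : Matrix (Fin n) (Fin n) ℝ) *ᵥ y ∈ OpenSimplex v

/-- Full (positive) answer to Q1, with vertices in the full orbital limit set. -/
theorem result :
  ∀ (n : ℕ) (C : Set (Fin n → ℝ)) (Γ : Subgroup (GL (Fin n) ℝ)),
    IsOpen C → Convex ℝ C → C.Nonempty → (0 : Fin n → ℝ) ∉ C →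
    (∀ x ∈ C, ∀ t : ℝ, 0 < t → t • x ∈ C) →
    (∀ v : Fin n → ℝ, v ∈ closure C → -v ∈ closure C → v = 0) →
    DiscreteTopology Γ →
    (∀ g ∈ Γ, |Matrix.det (g : Matrix (Fin n) (Fin n) ℝ)| = 1 ∧
        ∀ x ∈ C, (g : Matrix (Fin n) (Fin n) ℝ) *ᵥ x ∈ C) →
    (∃ y : Fin n → ℝ, y ∈ C ∧ ∃ t : ℝ, 0 < t ∧ ∃ w ∈ convexHull ℝ (Lam C Γ), y = t • w) →
    (∃ K : Set (Fin n → ℝ), IsCompact K ∧ K ⊆ C ∧
      ∀ y : Fin n → ℝ, (y ∈ C ∧ ∃ t : ℝ, 0 < t ∧ ∃ w ∈ convexHull ℝ (Lam C Γ), y = t • w) →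
        ∃ g ∈ Γ, ∃ t : ℝ, 0 < t ∧ t • ((g : Matrix (Fin n) (Fin n) ℝ) *ᵥ y) ∈ K) →
    (¬ ∃ S : Finset ↥Γ, Subgroup.closure (S : Set ↥Γ) = ⊤ ∧ ∃ δ : ℕ,
        ∀ x y z w : ↥Γ,
          (SimpleGraph.fromRel fun a b : ↥Γ => a⁻¹ * b ∈ S).dist x y
            + (SimpleGraph.fromRel fun a b : ↥Γ => a⁻¹ * b ∈ S).dist z w
          ≤ max ((SimpleGraph.fromRel fun a b : ↥Γ => a⁻¹ * b ∈ S).dist x z
                  + (SimpleGraph.fromRel fun a b : ↥Γ => a⁻¹ * b ∈ S).dist y w)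
                ((SimpleGraph.fromRel fun a b : ↥Γ => a⁻¹ * b ∈ S).dist x w
                  + (SimpleGraph.fromRel fun a b : ↥Γ => a⁻¹ * b ∈ S).dist y z)
            + 2 * δ) →
    ∃ k : ℕ, 2 ≤ k ∧ ∃ v : Fin (k + 1) → (Fin n → ℝ), InCore C Γ v ∧ Q1Conclusion C Γ k v := by
  intro n C Γ h1 h2 h3 h4 h5 h6 h7 h8 h9 h10 hyp
  have h : Pool.Agent.PFS.CC C Γ :=
    { isOpen := h1
      convex := h2
      nonempty := h3
      zero := h4
      smul := h5
      salient := h6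
      disc := h7
      det := fun g hg => (h8 g hg).1
      mem := fun g hg => (h8 g hg).2
      core := h9
      cocompact := by
        obtain ⟨K, hK1, hK2, hK3⟩ := h10
        exact ⟨K, hK1, hK2, fun y hy hy' => hK3 y ⟨hy, hy'⟩⟩ }
  obtain ⟨k, hk, w, hw, c1, c2, c3, c4, c5⟩ :=
    Pool.Agent.VMX.H48.concl_of_fnl Pool.Agent.VMX.H48.fFnl n C Γ h hyp
  exact ⟨k, hk, w, (Pool.Agent.NTW.H2.isPES_iff h w).mp hw,
    ⟨c1, c2, c3⟩, fun m w hw hsub => c4 m w hw.1 hw.2.1 hw.2.2 hsub, c5⟩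

end Pool.Agent.Results.MP_e54c4c_gt.FlatSimplices
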